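import Pool.Agent.Helper82.Tau1

/-!
MP_24a1d9_gt, Q1, the instance `S₁(Ω,T)`: it is preserved under finite powers (in ZFC).
-/

namespace Pool.Agent.Results.MP_24a1d9_gt.SOneOmegaTauPowers

open TauPow

/-- Every finite power of a set of reals with `S₁(Ω,T)` has `S₁(Ω,T)`. -/
theorem result :
    ∀ X : Set ℝ, S1 (Omega X) (Tau X) →
      ∀ k : ℕ, 1 ≤ k → S1 (Omega (Fin k → X)) (Tau (Fin k → X)) :=
  fun X hX k _ => positive_part_tau X hX k

end Pool.Agent.Results.MP_24a1d9_gt.SOneOmegaTauPowers
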